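import Pool.Agent.Lib.MP_b2e238_gt.K.Dif

/-! Units on a solid torus. -/

open scoped ContDiff Topology
open Set Metric

noncomputable section

namespace Pool.Agent.Lib.MP_b2e238_gt

theorem egunit_eq {X : Type} [TopologicalSpace X] {S : Set X} (h : IsPreconnected S) {f g : X → ℂ}
    (cf : ContinuousOn f S) (cg : ContinuousOn g S)
    (e : ∀ x ∈ S, Complex.exp (f x) = Complex.exp (g x)) {a : X} (m : a ∈ S) (k : f a = g a) :
    EqOn f g S :=
  Complex.isCoveringMap_exp.eqOn_of_comp_eqOn h cf cg (fun x hx => Subtype.ext (e x hx)) m k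

theorem egunit_log {S : Set (ℝ × ℂ)} (cv : Convex ℝ S) (o : IsOpen S) (m : S.Nonempty)
    {u : ℝ × ℂ → ℂ} (c : ContinuousOn u S) (n : ∀ w ∈ S, u w ≠ 0) :
    ∃ f : ℝ × ℂ → ℂ, ContinuousOn f S ∧ ∀ w ∈ S, Complex.exp (f w) = u w := by
  have := cv.contractibleSpace m
  have s : IsSimplyConnected S := SimplyConnectedSpace.ofContractible _
  obtain ⟨f, cf, ef⟩ := Complex.exists_continuousOn_eqOn_exp_comp s o c
    fun ⟨w, hw, e⟩ => n w hw e
  exact ⟨f, cf, ef⟩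

theorem eg_unit {u : ℝ × ℂ → ℂ} {r : ℝ} (q : 0 < r) (c : ContinuousOn u (univ ×ˢ ball 0 r))
    (n : ∀ t z, ‖z‖ < r → u (t, z) ≠ 0) (p : ∀ t z, u (t + 1, z) = u (t, z)) :
    ∃ (k : ℤ) (L : ℝ × ℂ → ℂ), ContinuousOn L (univ ×ˢ ball 0 r) ∧
      (∀ t z, L (t + 1, z) = L (t, z)) ∧
      ∀ t z, ‖z‖ < r → u (t, z) = ex (k * t) * Complex.exp (L (t, z)) := by
  have cv : Convex ℝ ((univ : Set ℝ) ×ˢ ball (0 : ℂ) r) := convex_univ.prod (convex_ball _ _)
  have m : ∀ (t : ℝ) {z : ℂ}, ‖z‖ < r → (t, z) ∈ (univ : Set ℝ) ×ˢ ball (0 : ℂ) r :=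
    fun t z h => ⟨trivial, mem_ball_zero_iff.2 h⟩
  have q0 : ‖(0 : ℂ)‖ < r := by rwa [norm_zero]
  obtain ⟨f, cf, ef⟩ := egunit_log cv (isOpen_univ.prod isOpen_ball) ⟨_, m 0 q0⟩ c
    fun w hw => n w.1 w.2 (mem_ball_zero_iff.1 hw.2)
  have e0 : Complex.exp (f (0 + 1, 0)) = Complex.exp (f (0, 0)) := by
    rw [ef _ (m _ q0), ef _ (m _ q0), p]
  obtain ⟨k, hk⟩ := Complex.exp_eq_exp_iff_exists_int.1 e0
  have c0 : Continuous fun w : ℝ × ℂ => (w.1 + 1, w.2) := by fun_prop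
  have c1 : ContinuousOn (fun w : ℝ × ℂ => f (w.1 + 1, w.2)) (univ ×ˢ ball 0 r) :=
    cf.comp c0.continuousOn fun w hw => ⟨trivial, hw.2⟩
  have c3 : ContinuousOn (fun w : ℝ × ℂ => f w + k * (2 * Real.pi * .I)) (univ ×ˢ ball 0 r) :=
    cf.add continuousOn_const
  have key := egunit_eq cv.isPreconnected c1 c3 (fun w hw => by
    have h := mem_ball_zero_iff.1 hw.2
    rw [Complex.exp_add, Complex.exp_int_mul_two_pi_mul_I, mul_one, ef _ (m _ h), p, ef _ hw])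
    (m 0 q0) hk
  have c2 : Continuous fun w : ℝ × ℂ => (k : ℂ) * (2 * Real.pi * .I) * (w.1 : ℂ) := by fun_prop
  have c4 : ContinuousOn (fun w : ℝ × ℂ => f w - k * (2 * Real.pi * .I) * w.1)
      (univ ×ˢ ball 0 r) := ContinuousOn.sub cf c2.continuousOn
  refine ⟨k, fun w => if ‖w.2‖ < r then f w - k * (2 * Real.pi * .I) * w.1 else 0, ?_,
    fun t z => ?_, fun t z h => ?_⟩
  · refine c4.congr fun w hw => ?_
    have h : ‖w.2‖ < r := mem_ball_zero_iff.1 hw.2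
    simp only [h, if_true]
  · beta_reduce
    by_cases h : ‖z‖ < r
    · have : f (t + 1, z) = f (t, z) + k * (2 * Real.pi * .I) := key (m t h)
      rw [if_pos h, if_pos h, this]
      push_cast
      ring
    · rw [if_neg h, if_neg h]
  · beta_reduce
    rw [if_pos h, ex, ← Complex.exp_add, ← ef _ (m t h)]
    refine congrArg Complex.exp ?_
    push_cast
    ring

end Pool.Agent.Lib.MP_b2e238_gt
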