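import Pool.Agent.Lib.MP_b2e238_gt.G.Odd
import Pool.Agent.Lib.MP_b2e238_gt.G.Unit

/-! The Seifert framing lifts. -/

open scoped ContDiff Topology
open Set Metric

noncomputable section

namespace Pool.Agent.Lib.MP_b2e238_gt

variable {Y : Set C3} {p : C3 → (ℝ × ℂ) × ℝ} {ν' : ℝ × ℂ → C3} {ν : ℝ × ℂ → (ℝ × ℂ) × ℝ}

theorem exists_seif (hp : Br ℝ Y (Sph ℝ) (range fun t => ν (t, 0)) p) (hν' : Tube Y ν' 2)
    (hν : Tube (Sph ℝ) ν 4) (lift : ∀ t z, ‖z‖ < 2 → p (ν' (t, z)) = ν (t, z ^ 2))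
    (pole : ν 0 = (0, 1)) : ∃ (μ' : ℝ × ℂ → C3) (μ : ℝ × ℂ → (ℝ × ℂ) × ℝ) (g : (ℝ × ℂ) × ℝ → ℂ),
      (∀ t, μ (t, 0) = ν (t, 0)) ∧ Tube Y μ' 2 ∧ Tube (Sph ℝ) μ 4 ∧
      (∀ t z, ‖z‖ < 2 → p (μ' (t, z)) = μ (t, z ^ 2)) ∧
      ContinuousOn g (Sph ℝ \ range fun t => ν (t, 0)) ∧
      (∀ y ∈ Sph ℝ \ range fun t => ν (t, 0), g y ≠ 0) ∧
      ∀ t z, z ≠ 0 → ‖z‖ < 1 → g (μ (t, z)) = z := by
  obtain ⟨g, u, cg, g0, cu, pu, e⟩ := eg_odd hp hν' hν lift pole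
  obtain ⟨k, L, cL, pL, eL⟩ := eg_unit two_pos cu (fun t z h => (e t z h).1) pu
  obtain ⟨F, cF, eF, oF⟩ := (hν.small (r' := 2) (by norm_num)).fn (r₁ := 3 / 2) (by norm_num)
    (f := fun w => Complex.exp (-2 * (min 1 (max 0 (3 - 2 * ‖w.2‖)) : ℝ) * L w)) (x₀ := 1)
    ((ContinuousOn.mul (by fun_prop) cL).cexp) (fun t z => by simp only [pL]) fun t z h => by
      rw [max_eq_left (by linarith), min_eq_right zero_le_one]; simp
  have F0 (y) : F y ≠ 0 := by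
    by_cases h : y ∈ ν '' {u | ‖u.2‖ < 2}
    · obtain ⟨w, hw, rfl⟩ := h
      rw [eF w.1 w.2 hw]; exact Complex.exp_ne_zero _
    · rw [oF y h]; exact one_ne_zero
  have x2 (t : ℝ) : ex ((-(2 * k) : ℤ) * t) = ex ((-k : ℤ) * t) ^ 2 := by
    rw [pow_two, ← ex_add]; congr 1; push_cast; ring
  refine ⟨_, _, fun y => g y * F y, fun t => by simp, hν'.rot (-k), hν.rot (-(2 * k)),
    fun t z h => ?_, cg.mul (cF.mono sdiff_subset), fun y h => mul_ne_zero (g0 y h) (F0 y),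
    fun t z z0 h => ?_⟩
  · simp only
    rw [lift _ _ (by rwa [norm_mul, norm_ex, one_mul]), mul_pow, x2]
  · have n : ‖ex ((-(2 * k) : ℤ) * t) * z‖ = ‖z‖ := by rw [norm_mul, norm_ex, one_mul]
    have n0 : ex ((-(2 * k) : ℤ) * t) * z ≠ 0 := by rwa [← norm_ne_zero_iff, n, norm_ne_zero_iff]
    have x1 : ex ((-k : ℤ) * t) * ex (k * t) = 1 := by
      rw [← ex_add, ← ex_int 0]; congr 1; push_cast; ring
    simp only
    rw [(e _ _ (by linarith)).2 n0, eF _ _ (by linarith), eL _ _ (by linarith), n,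
      min_eq_left (le_max_of_le_right (by linarith))]
    generalize L (t, ex ((-(2 * k) : ℤ) * t) * z) = l
    have x3 : Complex.exp l ^ 2 * Complex.exp (-2 * (1 : ℝ) * l) = 1 := by
      rw [pow_two, ← Complex.exp_add, ← Complex.exp_add, ← Complex.exp_zero]; congr 1; push_cast; ring
    rw [x2]
    linear_combination z * (ex ((-k : ℤ) * t) * ex (k * t)) ^ 2 * x3 +
      z * (ex ((-k : ℤ) * t) * ex (k * t) + 1) * x1

end Pool.Agent.Lib.MP_b2e238_gt
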