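import Pool.Agent.Lib.MP_b2e238_gt.U.Sec
import Pool.Agent.Lib.MP_b2e238_gt.Z.Slide
import Pool.Agent.Lib.MP_b2e238_gt.Z.Br
import Pool.Agent.Lib.MP_b2e238_gt.B.CO

/-! Small tools on solid tori, branched covers and complex lines. -/

open scoped ContDiff Topology
open Set Metric

noncomputable section

namespace Pool.Agent.Lib.MP_b2e238_gt

variable {P V W W' X : Type} [NormedAddCommGroup P] [NormedSpace ℝ P] [NormedAddCommGroup V]
  [NormedSpace ℝ V] [NormedAddCommGroup W] [NormedSpace ℝ W] [NormedAddCommGroup W']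
  [NormedSpace ℝ W'] [FiniteDimensional ℝ P] [FiniteDimensional ℝ V] [FiniteDimensional ℝ W]
  [FiniteDimensional ℝ W'] [TopologicalSpace X]

omit [FiniteDimensional ℝ V] in
theorem Tube.small {A : Set V} {ν : ℝ × ℂ → V} {r r' : ℝ} (h : Tube A ν r) (k : r' ≤ r) :
    Tube A ν r' :=
  ⟨h.1, fun s => (h.2 s).mono (isOpen_Ioo.prod isOpen_ball)
    (prod_mono subset_rfl (ball_subset_ball k))⟩

theorem Tube.rot {A : Set V} {ν : ℝ × ℂ → V} {r : ℝ} (h : Tube A ν r) (k : ℤ) :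
    Tube A (fun u => ν (u.1, ex (k * u.1) * u.2)) r := by
  have c (a : ℝ) : ContDiff ℝ ∞ fun u : ℝ × ℂ => (u.1, ex (a * u.1) * u.2) :=
    contDiff_fst.prodMk ((contDiff_ex.comp (contDiff_const.mul contDiff_fst)).mul contDiff_snd)
  have m (a s : ℝ) : MapsTo (fun u : ℝ × ℂ => (u.1, ex (a * u.1) * u.2))
      (Ioo s (s + 1) ×ˢ ball 0 r) (Ioo s (s + 1) ×ˢ ball 0 r) := fun u hu =>
    ⟨hu.1, mem_ball_zero_iff.2 (by
      rw [norm_mul, norm_ex, one_mul]; exact mem_ball_zero_iff.1 hu.2)⟩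
  have e (a b t : ℝ) (z : ℂ) (o : a + b = 0) : ex (a * t) * (ex (b * t) * z) = z := by
    rw [← mul_assoc, ← ex_add, ← add_mul, o, zero_mul, ← Int.cast_zero, ex_int, one_mul]
  refine ⟨fun t z => ?_, fun s => (h.2 s).comp ⟨(c k).contDiffOn, (c (-k)).contDiffOn, m _ s, m _ s,
    fun u _ => Prod.ext rfl (e _ _ _ _ (neg_add_cancel _)),
    fun u _ => Prod.ext rfl (e _ _ _ _ (add_neg_cancel _))⟩ (isOpen_Ioo.prod isOpen_ball)⟩
  simp only
  rw [h.1, mul_add, mul_one, ex_add, ex_int, mul_one]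

theorem Tube.fn {A : Set V} {ν : ℝ × ℂ → V} {r r₁ : ℝ} (h : Tube A ν r) (k : r₁ < r)
    {f : ℝ × ℂ → X} (c : ContinuousOn f (univ ×ˢ ball 0 r)) (p : ∀ t z, f (t + 1, z) = f (t, z))
    {x₀ : X} (o : ∀ t z, r₁ ≤ ‖z‖ → f (t, z) = x₀) : ∃ F : V → X, ContinuousOn F A ∧
      (∀ t z, ‖z‖ < r → F (ν (t, z)) = f (t, z)) ∧ ∀ a ∉ ν '' {u | ‖u.2‖ < r}, F a = x₀ := by
  classical
  let F : V → X := fun a => if m : a ∈ ν '' {u | ‖u.2‖ < r} then f m.choose else x₀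
  have d1 (t z) (hz : ‖z‖ < r) : F (ν (t, z)) = f (t, z) := by
    have m : ν (t, z) ∈ ν '' {u | ‖u.2‖ < r} := ⟨_, hz, rfl⟩
    obtain ⟨e, n, e'⟩ := h.inj (t' := m.choose.1) hz m.choose_spec.1 m.choose_spec.2.symm
    simp only [F, dif_pos m]
    rw [← per_int (c := fun t => f (t, z)) (fun t => p t z) t n]
    exact congrArg f (Prod.ext e' e.symm)
  have d2 (a) (m : a ∉ ν '' {u | ‖u.2‖ < r}) : F a = x₀ := dif_neg m
  refine ⟨F, fun a ha => ?_, d1, d2⟩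
  by_cases m : a ∈ ν '' {u | ‖u.2‖ < r}
  · obtain ⟨u, hu, rfl⟩ := m
    have q := h.2 (u.1 - 1 / 2)
    obtain ⟨ψ, d⟩ := q.dif
    have m' := mem_image_of_mem ν (slide_mem u.1 hu)
    refine (((c.comp d.cG.continuousOn fun x l => ⟨trivial, (d.mG l).2⟩).congr fun x l => ?_)
      _ m').mono_of_mem_nhdsWithin (q.opn.2 _ m')
    have := d1 (ψ x).1 (ψ x).2 (mem_ball_zero_iff.1 (d.mG l).2)
    rwa [Prod.mk.eta, d.fg _ l] at this
  · refine ((continuousAt_const (y := x₀)).congr (Filter.mem_of_superset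
      ((h.compact k).isClosed.isOpen_compl.mem_nhds fun n =>
        m (image_mono (fun u hu => lt_of_le_of_lt hu k) n)) fun x hx => ?_)).continuousWithinAt
    by_cases n : x ∈ ν '' {u | ‖u.2‖ < r}
    · obtain ⟨u, hu, rfl⟩ := n
      exact ((d1 u.1 u.2 hu).trans (o _ _ (not_le.1 fun l => hx ⟨u, l, rfl⟩).le)).symm
    · exact (d2 _ n).symm

theorem Br.desc {A : Set V} {B F : Set W} {π : V → W} (h : Br P A B F π) {f : V → X}
    (c : ContinuousOn f (A \ π ⁻¹' F)) (e : ∀ a ∈ A, ∀ a' ∈ A, π a' = π a → f a' = f a) :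
    ∃ g : W → X, ContinuousOn g (B \ F) ∧ ∀ a ∈ A, g (π a) = f a := by
  classical
  let g : W → X := fun b => if m : b ∈ π '' A then f m.choose else f 0
  have d (a) (ha : a ∈ A) : g (π a) = f a := by
    have m := mem_image_of_mem π ha
    simp only [g, dif_pos m]
    exact e a ha _ m.choose_spec.1 m.choose_spec.2
  refine ⟨g, fun b hb => ?_, d⟩
  obtain ⟨a, ha, rfl⟩ := h.surj hb.1
  obtain ⟨N, σ, o, m, j, s, -, q⟩ := h.sec ha hb.2
  refine (((c.comp s.continuousOn fun y l => ⟨(q y l).1, fun z => j.notMem_of_mem_left l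
    ((q y l).2 ▸ z)⟩).congr fun y l => ?_) _ m).mono_of_mem_nhdsWithin
      (nhdsWithin_mono _ sdiff_subset (o.2 _ m))
  have := d _ (q y l).1
  rwa [(q y l).2] at this

theorem Br.base {A : Set V} {B F : Set W} {B' : Set W'} {π : V → W} {D : W → W'} {D' : W' → W}
    (h : Br P A B F π) (d : Dif B B' D D') : Br P A B' (D '' F) (D ∘ π) := by
  have e (b) (hb : b ∈ B) : A ∩ (D ∘ π) ⁻¹' {D b} = A ∩ π ⁻¹' {b} :=
    Set.ext fun a => and_congr_right fun ha => ⟨d.injOn (h.mapsTo ha) hb, congrArg D⟩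
  refine br_of_brAt (fun b hb => ?_) ?_ fun a ha => (h.brAt ha).map (Dif.refl A) (.refl _) (.refl _)
    d (.refl _) (.refl _) ha h.mapsTo fun x hx => ⟨rfl, d.injOn.mem_image_iff h.sub (h.mapsTo hx)⟩
  · rw [← d.fg b hb.1, e _ (d.mG hb.1)]
    exact h.1 _ ⟨d.mG hb.1, fun k => hb.2 ⟨_, k, d.fg b hb.1⟩⟩
  · rintro _ ⟨b, hb, rfl⟩
    rw [e b (h.sub hb)]
    exact h.2.1 b hb

/-- The standard Hermitian form. -/
def egkitH (v : ℂ × C3) : (ℂ × C3) →L[ℂ] ℂ :=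
  star v.1 • .fst ℂ ℂ C3 + star v.2.1 • (.fst ℂ ℂ (ℂ × ℂ) ∘L .snd ℂ ℂ C3) +
    star v.2.2.1 • (.fst ℂ ℂ ℂ ∘L .snd ℂ ℂ (ℂ × ℂ) ∘L .snd ℂ ℂ C3) +
      star v.2.2.2 • (.snd ℂ ℂ ℂ ∘L .snd ℂ ℂ (ℂ × ℂ) ∘L .snd ℂ ℂ C3)

theorem egkitH_apply (v x : ℂ × C3) : egkitH v x =
    star v.1 * x.1 + star v.2.1 * x.2.1 + star v.2.2.1 * x.2.2.1 + star v.2.2.2 * x.2.2.2 := rfl

theorem egkit_ne {v : ℂ × C3} (h : v ≠ 0) : egkitH v v ≠ 0 := fun e => by
  simp only [egkitH_apply, Complex.star_def, ← Complex.normSq_eq_conj_mul_self] at e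
  have e' : Complex.normSq v.1 + Complex.normSq v.2.1 + Complex.normSq v.2.2.1 +
    Complex.normSq v.2.2.2 = 0 := by exact_mod_cast e
  have a := Complex.normSq_nonneg v.1
  have b := Complex.normSq_nonneg v.2.1
  have c := Complex.normSq_nonneg v.2.2.1
  have d := Complex.normSq_nonneg v.2.2.2
  exact h (Prod.ext (Complex.normSq_eq_zero.1 (by linarith)) (Prod.ext
    (Complex.normSq_eq_zero.1 (by linarith)) (Prod.ext (Complex.normSq_eq_zero.1 (by linarith))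
      (Complex.normSq_eq_zero.1 (by linarith)))))

theorem eg_cf : ∃ Cf : ℂ × C3 → (ℂ × C3) →L[ℂ] ℂ, ContinuousOn Cf {0}ᶜ ∧ (∀ v ≠ 0, Cf v v = 1) ∧
    (∀ v, ∀ l : ℂ, l ≠ 0 → Cf (l • v) = l⁻¹ • Cf v) ∧ ∀ x, Cf (1, 0) x = x.1 := by
  have c : Continuous egkitH := by unfold egkitH; fun_prop
  have s (v) (l : ℂ) : egkitH (l • v) = star l • egkitH v := by
    refine ContinuousLinearMap.ext fun x => ?_
    simp only [smul_apply, egkitH_apply, Prod.smul_fst, Prod.smul_snd,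
      smul_eq_mul, star_mul']
    ring
  refine ⟨fun v => (egkitH v v)⁻¹ • egkitH v, ((c.clm_apply continuous_id).continuousOn.inv₀
    fun v h => egkit_ne h).smul c.continuousOn, fun v h => inv_mul_cancel₀ (egkit_ne h),
    fun v l h => ?_, fun x => by simp [egkitH_apply]⟩
  simp only
  rw [s, smul_apply, map_smul, smul_smul, smul_smul, smul_smul, smul_eq_mul, mul_assoc,
    mul_inv, mul_right_comm, inv_mul_cancel₀ (star_ne_zero.2 h), one_mul, mul_inv]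

end Pool.Agent.Lib.MP_b2e238_gt
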