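import Pool.Agent.Lib.MP_b2e238_gt.C.Defs

/-! Sections of a family of projections. -/

open scoped ContDiff Topology
open Set Metric

noncomputable section

namespace Pool.Agent.Lib.MP_b2e238_gt

theorem egline_conn {R : ℝ} (h : 0 ≤ R) : IsPreconnected {z : ℂ | R ≤ ‖z‖} := by
  have : {z : ℂ | R ≤ ‖z‖} = (fun u : ℝ × ℝ => u.1 * Complex.exp (u.2 * .I)) '' Ici R ×ˢ univ := by
    ext z
    refine ⟨fun k => ⟨(‖z‖, z.arg), ⟨k, trivial⟩, Complex.norm_mul_exp_arg_mul_I z⟩, ?_⟩
    rintro ⟨u, ⟨k, -⟩, rfl⟩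
    simpa [abs_of_nonneg (h.trans k)] using k
  rw [this]
  exact (isPreconnected_Ici.prod isPreconnected_univ).image _ (by fun_prop)

theorem egline_log {a : ℂ → ℂ} (c : Continuous a) (n : ∀ z, a z ≠ 0) {R : ℝ} (h : 0 ≤ R)
    (o : ∀ z, R ≤ ‖z‖ → a z = 1) : ∃ L : ℂ → ℂ, Continuous L ∧ (∀ z, Complex.exp (L z) = a z) ∧
      ∀ z, R ≤ ‖z‖ → L z = 0 := by
  have := (convex_univ (𝕜 := ℝ) (E := ℂ)).contractibleSpace univ_nonempty
  obtain ⟨L, cL, e⟩ := Complex.exists_continuousOn_eqOn_exp_comp (U := univ)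
    (inferInstanceAs (SimplyConnectedSpace (univ : Set ℂ))) isOpen_univ c.continuousOn
    fun ⟨z, _, k⟩ => n z k
  have e' : ∀ z, Complex.exp (L z) = a z := fun z => e trivial
  have m : R ≤ ‖(R : ℂ)‖ := by simp [abs_of_nonneg h]
  refine ⟨fun z => L z - L R, (continuousOn_univ.1 cL).sub continuous_const,
    fun z => by rw [Complex.exp_sub, e', e', o _ m, div_one], fun z k => sub_eq_zero.2 ?_⟩
  exact Complex.isCoveringMap_exp.constOn_of_comp (egline_conn h) (cL.mono (subset_univ _))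
    (fun x hx y hy => Subtype.ext (by simp only [e', o x hx, o y hy])) k m

/-- The iterated projection along the lines `z = const`. -/
def eglineW (Q : ℝ × ℂ → (ℂ × C3) →L[ℂ] ℂ × C3) (R δ : ℝ) : ℕ → ℝ × ℂ → ℂ × C3
  | 0, _ => (1, 0)
  | n + 1, y => Q (min y.1 (-R + (n + 1 : ℕ) * δ), y.2) (eglineW Q R δ n y)

theorem eg_line {Q : ℝ × ℂ → (ℂ × C3) →L[ℂ] ℂ × C3} (c : Continuous Q)
    (i : ∀ y x, Q y (Q y x) = Q y x) {R : ℝ} (o : ∀ y, R ≤ ‖y‖ → ∀ x, Q y x = (x.1, 0)) :
    ∃ (v : ℝ × ℂ → ℂ × C3) (R' : ℝ), Continuous v ∧ (∀ y, v y ≠ 0 ∧ Q y (v y) = v y) ∧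
      ∀ y, R' ≤ ‖y‖ → v y = (1, 0) := by
  wlog h : 0 ≤ R generalizing R
  · exact this (R := 0) (fun y _ => o y ((not_le.1 h).le.trans (norm_nonneg y))) le_rfl
  have o₁ : ∀ s z, s ≤ -R ∨ R ≤ s → ∀ x, Q (s, z) x = (x.1, 0) := fun s z k =>
    o _ (le_trans (k.elim (fun k => le_abs.2 (.inr (by linarith))) fun k => le_abs.2 (.inl k))
      (norm_fst_le (s, z)))
  have o₂ : ∀ s z, R ≤ ‖z‖ → ∀ x, Q (s, z) x = (x.1, 0) := fun s z k =>
    o _ (k.trans (norm_snd_le (s, z)))
  have s : HasCompactSupport fun y => Q y - Q (R, 0) :=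
    HasCompactSupport.intro (isCompact_closedBall 0 R) fun y k => sub_eq_zero.2
      (ContinuousLinearMap.ext fun x => by
        rw [o y (not_le.1 (mt mem_closedBall_zero_iff.2 k)).le, o₁ _ _ (.inr le_rfl)])
  obtain ⟨δ, hδ, u⟩ := Metric.uniformContinuous_iff_le.1
    (s.uniformContinuous_of_continuous (c.sub continuous_const)) (1 / 2) one_half_pos
  have cW : ∀ n, Continuous (eglineW Q R δ n) := fun n => by
    induction n with
    | zero => exact continuous_const
    | succ n ih => exact (c.comp (by fun_prop)).clm_apply ih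
  have fW : ∀ n y, eglineW Q R δ n y ≠ 0 ∧
      Q (min y.1 (-R + n * δ), y.2) (eglineW Q R δ n y) = eglineW Q R δ n y := fun n y => by
    induction n with
    | zero => exact ⟨by simp [eglineW], o₁ _ _ (.inl ((min_le_right _ _).trans (by simp))) _⟩
    | succ n ih =>
      refine ⟨fun e => ?_, i _ _⟩
      have a := u (a := (min y.1 (-R + n * δ), y.2)) (b := (min y.1 (-R + (n + 1 : ℕ) * δ), y.2)) (by
        rw [Prod.dist_eq, dist_self, max_le_iff, Real.dist_eq]
        refine ⟨(abs_min_sub_min_le_max ..).trans ?_, hδ.le⟩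
        push_cast
        rw [sub_self, abs_zero, show -R + n * δ - (-R + (n + 1) * δ) = -δ by ring, abs_neg,
          abs_of_pos hδ, max_eq_right hδ.le])
      rw [dist_eq_norm, sub_sub_sub_cancel_right] at a
      have b := (ContinuousLinearMap.le_opNorm _ (eglineW Q R δ n y)).trans
        (mul_le_mul_of_nonneg_right a (norm_nonneg _))
      rw [ContinuousLinearMap.sub_apply, ih.2, show Q _ _ = 0 from e, sub_zero] at b
      linarith [norm_pos_iff.2 ih.1]
  have oW : ∀ n y, y.1 ≤ -R ∨ R ≤ ‖y.2‖ → eglineW Q R δ n y = (1, 0) := fun n y k => by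
    induction n with
    | zero => rfl
    | succ n ih =>
      rw [eglineW, ih]
      exact k.elim (fun k => o₁ _ _ (.inl ((min_le_left _ _).trans k)) _) fun k => o₂ _ _ k _
  obtain ⟨N, hN⟩ := exists_nat_ge (2 * R / δ)
  obtain ⟨T, hT⟩ : ∃ T, T = -R + N * δ := ⟨_, rfl⟩
  have RT : R ≤ T := by rw [div_le_iff₀ hδ] at hN; linarith
  have e : ∀ z, eglineW Q R δ N (T, z) = ((eglineW Q R δ N (T, z)).1, 0) := fun z => by
    rw [← o₁ T z (.inr RT)]
    simpa only [← hT, min_self] using (fW N (T, z)).2.symm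
  obtain ⟨L, cL, eL, oL⟩ := egline_log (a := fun z => (eglineW Q R δ N (T, z)).1)
    ((cW N).comp (by fun_prop)).fst (fun z k => (fW N (T, z)).1 (by rw [e, k]; rfl)) h
    fun z k => by rw [oW N _ (.inr k)]
  refine ⟨fun y => Complex.exp (-(min 1 (max 0 (y.1 - T)) : ℝ) * L y.2) •
    eglineW Q R δ N (min y.1 T, y.2), T + 1, ?_, fun y => ⟨smul_ne_zero (Complex.exp_ne_zero _)
      (fW N _).1, ?_⟩, fun y k => ?_⟩
  · have := cW N
    fun_prop
  · rw [map_smul]
    congr 1
    have := (fW N (min y.1 T, y.2)).2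
    simp only [← hT, min_assoc, min_self] at this
    rcases le_total y.1 T with k | k
    · rwa [min_eq_left k] at this ⊢
    · rw [min_eq_right k, o₁ _ _ (.inr (RT.trans k)), ← e]
  · dsimp only
    rcases le_max_iff.1 k with k | k
    · rcases le_abs.1 k with k | k
      · rw [min_eq_left (le_max_of_le_right (by linarith)), min_eq_right (by linarith), e, ← eL]
        simp [← Complex.exp_add]
      · rw [max_eq_left (by linarith), min_eq_right zero_le_one,
          oW N _ (.inl ((min_le_left _ _).trans (by linarith)))]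
        simp
    · rw [oL _ (by linarith), oW N _ (.inr (by linarith))]
      simp

end Pool.Agent.Lib.MP_b2e238_gt
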