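import Pool.Agent.Lib.MP_b2e238_gt.G.Line

/-! Sections of a family of projections on the three-sphere. -/

open scoped ContDiff Topology
open Set Metric

noncomputable section

namespace Pool.Agent.Lib.MP_b2e238_gt

/-- The square of the Euclidean norm. -/
def egsphQ (x : ℝ × ℂ) : ℝ := x.1 ^ 2 + ‖x.2‖ ^ 2

/-- The inverse of the stereographic projection. -/
def egsphSt (x : ℝ × ℂ) : (ℝ × ℂ) × ℝ :=
  ((2 / (egsphQ x + 1)) • x, (egsphQ x - 1) / (egsphQ x + 1))

theorem egsph_sq (x : ℝ × ℂ) : ‖x‖ ^ 2 ≤ egsphQ x := by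
  rw [Prod.norm_def, egsphQ, Real.norm_eq_abs]
  rcases max_choice |x.1| ‖x.2‖ with h | h <;> rw [h] <;>
    nlinarith [sq_abs x.1, sq_nonneg x.1, sq_nonneg ‖x.2‖]

theorem egsph_pos (x : ℝ × ℂ) : 0 < egsphQ x + 1 := by nlinarith [egsph_sq x, sq_nonneg ‖x‖]

theorem egsph_smul (c : ℝ) (x : ℝ × ℂ) : egsphQ (c • x) = c ^ 2 * egsphQ x := by
  simp only [egsphQ, Prod.smul_fst, Prod.smul_snd, norm_smul, smul_eq_mul, mul_pow,
    Real.norm_eq_abs, sq_abs]
  ring

theorem egsph_iff {y : (ℝ × ℂ) × ℝ} : y ∈ Sph ℝ ↔ egsphQ y.1 + y.2 ^ 2 = 1 := by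
  simp only [Sph, egsphQ, mem_ofPred_eq, Real.norm_eq_abs, sq_abs]

theorem egsph_cont : Continuous egsphSt := by
  have c : Continuous egsphQ := by unfold egsphQ; fun_prop
  exact ((continuous_const.div (c.add continuous_const) fun x => (egsph_pos x).ne').smul
    continuous_id).prodMk ((c.sub continuous_const).div (c.add continuous_const)
      fun x => (egsph_pos x).ne')

theorem egsph_mem (x : ℝ × ℂ) : egsphSt x ∈ Sph ℝ := by
  have := (egsph_pos x).ne'
  simp only [egsph_iff, egsphSt, egsph_smul]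
  field_simp
  ring

theorem egsph_lt (x : ℝ × ℂ) : (egsphSt x).2 < 1 :=
  (div_lt_one (egsph_pos x)).2 (by linarith)

theorem egsph_inv {y : (ℝ × ℂ) × ℝ} (h : y ∈ Sph ℝ) (n : y.2 ≠ 1) :
    egsphSt ((1 - y.2)⁻¹ • y.1) = y := by
  have n' : 1 - y.2 ≠ 0 := sub_ne_zero.2 n.symm
  have q : egsphQ ((1 - y.2)⁻¹ • y.1) + 1 = 2 / (1 - y.2) := by
    rw [egsph_smul, eq_sub_of_add_eq (egsph_iff.1 h)]
    field_simp
    ring
  refine Prod.ext ?_ ?_
  · simp only [egsphSt, q, smul_smul]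
    rw [show 2 / (2 / (1 - y.2)) * (1 - y.2)⁻¹ = 1 by field_simp, one_smul]
  · simp only [egsphSt]
    rw [q, eq_sub_of_add_eq q]
    field_simp
    ring

theorem egsph_far {ε : ℝ} (e : 0 < ε) {x : ℝ × ℂ} (h : 2 / ε + 1 ≤ ‖x‖) :
    dist (egsphSt x) (0, 1) < ε := by
  have p := egsph_pos x
  have s := egsph_sq x
  have e1 : 0 < 2 / ε := by positivity
  have e2 : 2 < ε * ‖x‖ := by
    have : ε * (2 / ε + 1) = 2 + ε := by field_simp
    nlinarith
  have e3 : 2 * ‖x‖ < ε * (egsphQ x + 1) := by nlinarith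
  rw [Prod.dist_eq]
  refine max_lt ?_ ?_
  · simp only [egsphSt, dist_zero_right, norm_smul, Real.norm_eq_abs]
    rwa [abs_of_pos (by positivity), div_mul_eq_mul_div, div_lt_iff₀ p]
  · simp only [egsphSt, Real.dist_eq]
    rw [show (egsphQ x - 1) / (egsphQ x + 1) - 1 = -(2 / (egsphQ x + 1)) by field_simp; ring,
      abs_neg, abs_of_pos (by positivity), div_lt_iff₀ p]
    linarith

theorem eg_sph {Q : (ℝ × ℂ) × ℝ → (ℂ × C3) →L[ℂ] ℂ × C3} (c : ContinuousOn Q (Sph ℝ))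
    (i : ∀ y ∈ Sph ℝ, ∀ x, Q y (Q y x) = Q y x)
    (o : ∀ᶠ y in 𝓝[Sph ℝ] (0, 1), ∀ x, Q y x = (x.1, 0)) :
    ∃ v : (ℝ × ℂ) × ℝ → ℂ × C3, ContinuousOn v (Sph ℝ) ∧
      ∀ y ∈ Sph ℝ, v y ≠ 0 ∧ Q y (v y) = v y := by
  obtain ⟨ε, e, oε⟩ := Metric.mem_nhdsWithin_iff.1 o
  obtain ⟨v, R, cv, hv, ov⟩ := eg_line (Q := fun x => Q (egsphSt x))
    (c.comp_continuous egsph_cont egsph_mem) (fun x => i _ (egsph_mem x)) (R := 2 / ε + 1)
    fun x hx => oε ⟨egsph_far e hx, egsph_mem x⟩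
  refine ⟨fun y => if y.2 = 1 then (1, 0) else v ((1 - y.2)⁻¹ • y.1), fun y hy => ?_,
    fun y hy => ?_⟩
  · by_cases n : y.2 = 1
    · refine (continuousWithinAt_const (b := (1, 0))).congr_of_eventuallyEq ?_ (if_pos n)
      filter_upwards [self_mem_nhdsWithin, nhdsWithin_le_nhds
        (((isCompact_closedBall 0 R).image egsph_cont).isClosed.isOpen_compl.mem_nhds
          (fun ⟨x, _, k⟩ => (egsph_lt x).ne (k ▸ n) : y ∉ egsphSt '' closedBall 0 R))] with z h1 h2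
      split_ifs with k
      · rfl
      · exact ov _ (not_lt.1 fun l => h2 ⟨_, mem_closedBall_zero_iff.2 l.le, egsph_inv h1 k⟩)
    · refine ContinuousAt.continuousWithinAt (ContinuousAt.congr
        (f := fun z => v ((1 - z.2)⁻¹ • z.1)) (cv.continuousAt.comp
          (((continuousAt_const.sub continuousAt_snd).inv₀ (sub_ne_zero.2 (Ne.symm n))).smul
            continuousAt_fst)) ?_)
      filter_upwards [continuousAt_snd.eventually_ne n] with z h using (if_neg h).symm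
  · beta_reduce
    split_ifs with n
    · have q := egsph_iff.1 hy
      have s := egsph_sq y.1
      have y0 : y = (0, 1) :=
        Prod.ext (norm_eq_zero.1 (by rw [n] at q; nlinarith [norm_nonneg y.1])) n
      exact ⟨by simp, oε ⟨y0 ▸ mem_ball_self e, hy⟩ _⟩
    · have := hv ((1 - y.2)⁻¹ • y.1)
      rwa [egsph_inv hy n] at this

end Pool.Agent.Lib.MP_b2e238_gt
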