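import Pool.Agent.Lib.MP_b2e238_gt.G.Kit
import Pool.Agent.Lib.MP_b2e238_gt.G.Sph
import Pool.Agent.Lib.MP_b2e238_gt.Z.Pre

/-! The square of an odd function on the branched double cover. -/

open scoped ContDiff Topology
open Set Metric

noncomputable section

namespace Pool.Agent.Lib.MP_b2e238_gt

variable {Y : Set C3} {p : C3 → (ℝ × ℂ) × ℝ} {ν' : ℝ × ℂ → C3} {ν : ℝ × ℂ → (ℝ × ℂ) × ℝ}

theorem egOdd_root {w : ℂ} (h : ‖w‖ < 2) : ∃ z : ℂ, z ^ 2 = w ∧ ‖z‖ < 3 / 2 := by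
  obtain ⟨z, rfl⟩ := IsAlgClosed.exists_pow_nat_eq w two_pos
  rw [norm_pow] at h
  exact ⟨z, rfl, by nlinarith [norm_nonneg z]⟩

theorem egOdd_H (hp : Br ℝ Y (Sph ℝ) (range fun t => ν (t, 0)) p) (hν' : Tube Y ν' 2)
    (lift : ∀ t z, ‖z‖ < 2 → p (ν' (t, z)) = ν (t, z ^ 2)) : ∃ H : C3 → ℂ × C3,
      ContinuousOn H Y ∧ (∀ a ∈ Y, ∀ a' ∈ Y, p a' = p a → H a' = H a ∨ H a' = -H a) ∧
      (∀ a ∈ Y, p a ∉ (range fun t => ν (t, 0)) → H a ≠ 0) ∧
      ∀ t z, ‖z‖ < 3 / 2 → H (ν' (t, z)) = ((7 / 4 - ‖z‖ : ℝ) * z, 0) := by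
  obtain ⟨τ, d⟩ := hp.deck
  have z0 (t : ℝ) : p (ν' (t, 0)) ∈ range fun t => ν (t, 0) :=
    ⟨t, by rw [lift t 0 (by simp)]; simp⟩
  have τν (t : ℝ) (z : ℂ) (h : ‖z‖ < 2) : τ (ν' (t, z)) = ν' (t, -z) := by
    have h' : ‖-z‖ < 2 := by rwa [norm_neg]
    rcases d.fib _ (hν'.mem t h) _ (hν'.mem t h') (by rw [lift t _ h, lift t _ h', neg_sq]) with
      e | e
    · obtain rfl : z = 0 := by linear_combination (-1 / 2 : ℂ) * (hν'.inj h' h e).1
      rw [neg_zero]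
      exact (d.fix _ (hν'.mem t h)).2 (z0 t)
    · exact e.symm
  obtain ⟨F, cF, eF, oF⟩ := hν'.fn (r₁ := 7 / 4) (by norm_num)
    (f := fun w => (((max 0 (7 / 4 - ‖w.2‖) : ℝ) * w.2, min 1 (max 0 (4 * ‖w.2‖ - 6))) : ℂ × ℝ))
    (x₀ := (0, 1)) (by fun_prop) (fun _ _ => rfl) fun t z h => by
      rw [max_eq_left (by linarith), min_eq_left (le_max_of_le_right (by linarith))]
      simp
  have Fτ (a) (ha : a ∈ Y) : F (τ a) = (-(F a).1, (F a).2) := by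
    by_cases k : a ∈ ν' '' {u | ‖u.2‖ < 2}
    · obtain ⟨⟨t, z⟩, hz, rfl⟩ := k
      rw [τν t z hz, eF t z hz, eF t _ (by rwa [norm_neg])]
      simp
    · rw [oF a k, oF, neg_zero]
      rintro ⟨⟨t, z⟩, hz, e⟩
      exact k ⟨(t, -z), by rwa [mem_ofPred_eq, norm_neg], by rw [← τν t z hz, e, d.inv a ha]⟩
  refine ⟨fun a => ((F a).1, (F a).2 • (a - τ a)),
    cF.fst.prodMk (cF.snd.smul (continuousOn_id.sub d.sm.continuousOn)), fun a ha a' ha' e => ?_,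
    fun a ha n e => ?_, fun t z h => ?_⟩
  · rcases d.fib a ha a' ha' e with rfl | rfl
    · exact .inl rfl
    · refine .inr ?_
      simp only [Fτ a ha, d.inv a ha, Prod.neg_mk, ← smul_neg, neg_sub]
  · obtain ⟨e1, e2⟩ := Prod.mk_eq_zero.1 e
    have k : (F a).2 = 0 :=
      (smul_eq_zero.1 e2).resolve_right fun k => n ((d.fix a ha).1 (sub_eq_zero.1 k).symm)
    by_cases m : a ∈ ν' '' {u | ‖u.2‖ < 2}
    · obtain ⟨⟨t, z⟩, hz, rfl⟩ := m
      rw [eF t z hz] at k e1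
      rcases mul_eq_zero.1 e1 with q | q
      · have q1 : 7 / 4 - ‖z‖ ≤ 0 := (le_max_right _ _).trans (Complex.ofReal_eq_zero.1 q).le
        simp only at k
        rw [min_eq_left (le_max_of_le_right (by linarith))] at k
        exact one_ne_zero k
      · obtain rfl : z = 0 := q
        exact n (z0 t)
    · rw [oF a m] at k
      exact one_ne_zero k
  · simp only [eF t z (by linarith)]
    rw [max_eq_right (by linarith), max_eq_left (by linarith), min_eq_right zero_le_one, zero_smul]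

theorem eg_odd (hp : Br ℝ Y (Sph ℝ) (range fun t => ν (t, 0)) p) (hν' : Tube Y ν' 2)
    (hν : Tube (Sph ℝ) ν 4) (lift : ∀ t z, ‖z‖ < 2 → p (ν' (t, z)) = ν (t, z ^ 2))
    (pole : ν 0 = (0, 1)) : ∃ (g : (ℝ × ℂ) × ℝ → ℂ) (u : ℝ × ℂ → ℂ),
      ContinuousOn g (Sph ℝ \ range fun t => ν (t, 0)) ∧
      (∀ y ∈ Sph ℝ \ range fun t => ν (t, 0), g y ≠ 0) ∧ ContinuousOn u (univ ×ˢ ball 0 2) ∧
      (∀ t z, u (t + 1, z) = u (t, z)) ∧ ∀ t z, ‖z‖ < 2 → u (t, z) ≠ 0 ∧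
        (z ≠ 0 → g (ν (t, z)) = z * u (t, z) ^ 2) := by
  classical
  obtain ⟨H, cH, oH, nH, eH⟩ := egOdd_H hp hν' lift
  obtain ⟨Cf, cC, C1, Cl, C0⟩ := eg_cf
  generalize hK : (range fun t => ν (t, 0)) = K at hp nH ⊢
  let Pr : ℂ × C3 → (ℂ × C3) →L[ℂ] ℂ × C3 := fun w => (Cf w).smulRight w
  have Pl (w) (l : ℂ) (h : l ≠ 0) : Pr (l • w) = Pr w := by
    refine ContinuousLinearMap.ext fun x => ?_
    simp only [Pr, Cl w l h, ContinuousLinearMap.smulRight_apply, smul_apply, smul_smul,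
      smul_eq_mul]
    congr 1
    field_simp
  let w : C3 → ℂ × C3 := fun a => if p a ∈ K then (1, 0) else H a
  have w0 (a) (ha : a ∈ Y) : w a ≠ 0 := by
    by_cases k : p a ∈ K
    · simp [w, k]
    · simpa [w, k] using nH a ha k
  have cH' : ContinuousOn H (Y \ p ⁻¹' K) := cH.mono sdiff_subset
  have cP : ContinuousOn (fun a => Pr (H a)) (Y \ p ⁻¹' K) :=
    (((ContinuousLinearMap.smulRightL ℂ (ℂ × C3) (ℂ × C3)).continuous.comp_continuousOn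
      (cC.comp cH' fun a ha => nH a ha.1 ha.2)).clm_apply cH')
  obtain ⟨Q, cQ, eQ⟩ := hp.desc (f := fun a => Pr (w a))
    (cP.congr fun a ha => by simp only [w, if_neg (show p a ∉ K from ha.2)]) fun a ha a' ha' e => by
      simp only [w, e]
      split_ifs
      · rfl
      · rcases oH a ha a' ha' e with k | k <;> rw [k]
        rw [← neg_one_smul ℂ, Pl _ _ (by simp)]
  have r (z : ℂ) (h : ‖z‖ < 3 / 2) : ((7 / 4 - ‖z‖ : ℝ) : ℂ) ≠ 0 :=
    Complex.ofReal_ne_zero.2 (by linarith)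
  have QN (y) (hy : y ∈ ν '' {u | ‖u.2‖ < 2}) : Q y = Pr (1, 0) := by
    obtain ⟨⟨t, ζ⟩, h, rfl⟩ := hy
    obtain ⟨z, rfl, hz⟩ := egOdd_root h
    have h2 : ‖z‖ < 2 := by linarith
    rw [← lift t z h2, eQ _ (hν'.mem t h2)]
    simp only [w]
    split_ifs with k
    · rfl
    · have z0 : z ≠ 0 := fun e => k (hK ▸ ⟨t, by rw [lift t z h2, e]; simp⟩)
      rw [eH t z hz, ← Pl (1, 0) _ (mul_ne_zero (r z hz) z0)]
      simp
  have QX (y) (hy : y ∈ ν '' {u | ‖u.2‖ < 2}) (x) : Q y x = (x.1, 0) := by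
    simp [QN y hy, Pr, C0]
  have oN := (hν.small (r' := 2) (by norm_num)).opn
  obtain ⟨v, cv, ev⟩ := eg_sph (Q := Q) (fun y hy => by
    by_cases k : y ∈ K
    · obtain ⟨t, rfl⟩ : y ∈ range fun t => ν (t, 0) := hK ▸ k
      have m : ν (t, 0) ∈ ν '' {u | ‖u.2‖ < 2} := ⟨_, by simp, rfl⟩
      exact continuousWithinAt_const.congr_of_eventuallyEq
        (Filter.mem_of_superset (oN.2 _ m) QN) (QN _ m)
    · exact (cQ y ⟨hy, k⟩).mono_of_mem_nhdsWithin (hp.opn_compl.2 y ⟨hy, k⟩))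
    (fun y hy x => by
      obtain ⟨a, ha, rfl⟩ := hp.surj hy
      simp [eQ a ha, Pr, C1 _ (w0 a ha)])
    (Filter.mem_of_superset (oN.2 _ ⟨0, by simp, pole⟩) QX)
  have cp := hp.contOn
  obtain ⟨g, cg, eg⟩ := hp.desc (f := fun a => Cf (v (p a)) (H a) ^ 2)
    ((((cC.comp (cv.comp cp.1.continuousOn cp.2) fun a ha => (ev _ (cp.2 ha)).1).clm_apply
      cH).pow 2).mono sdiff_subset) fun a ha a' ha' e => by
      rcases oH a ha a' ha' e with k | k <;> simp [k, e]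
  have vN (t : ℝ) (z : ℂ) (h : ‖z‖ < 2) : v (ν (t, z)) = (v (ν (t, z))).1 • (1, 0) ∧
      (v (ν (t, z))).1 ≠ 0 := by
    obtain ⟨e1, e2⟩ := ev _ (hν.mem t (by linarith : ‖z‖ < 4))
    rw [QX _ ⟨(t, z), h, rfl⟩] at e2
    exact ⟨e2.symm.trans (by simp), fun k => e1 (by rw [← e2, k]; rfl)⟩
  refine ⟨g, fun u => (7 / 4 - √‖u.2‖ : ℝ) / (v (ν u)).1, cg, fun y hy => ?_, ?_,
    fun t z => by simp only [hν.1], fun t ζ h => ?_⟩
  · obtain ⟨a, ha, rfl⟩ := hp.surj hy.1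
    obtain ⟨e1, e2⟩ := ev _ hy.1
    rw [eQ a ha] at e2
    simp only [w, if_neg hy.2, Pr, ContinuousLinearMap.smulRight_apply] at e2
    have l : Cf (H a) (v (p a)) ≠ 0 := fun k => e1 (by rw [← e2, k, zero_smul])
    rw [eg a ha, ← e2, Cl _ _ l]
    simp [C1 _ (nH a ha hy.2), l]
  · refine ContinuousOn.div (by fun_prop) (cv.comp (hν.smooth.continuousOn.mono
      (prod_mono Subset.rfl (ball_subset_ball (by norm_num)))) fun u hu => hν.mem u.1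
        ((mem_ball_zero_iff.1 hu.2).trans (by norm_num))).fst
      fun u hu => (vN u.1 u.2 (mem_ball_zero_iff.1 hu.2)).2
  · obtain ⟨e1, e2⟩ := vN t ζ h
    obtain ⟨z, rfl, hz⟩ := egOdd_root h
    have h2 : ‖z‖ < 2 := by linarith
    simp only [norm_pow, Real.sqrt_sq (norm_nonneg z)]
    refine ⟨div_ne_zero (r z hz) e2, fun _ => ?_⟩
    have := eg _ (hν'.mem t h2)
    rw [lift t z h2, e1, Cl _ _ e2, eH t z hz, smul_apply, C0] at this
    rw [this, smul_eq_mul]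
    field_simp

end Pool.Agent.Lib.MP_b2e238_gt
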